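import Pool.Agent.Helper669.Forcing
import Pool.Agent.Q212.TW4

/-!
# MP_8214d2: a generic ultrafilter for an atomless quotient which is not Tukey-idempotent

The ideal `I` consists of the sets of natural numbers which do not almost contain a node of a tree
of height `ω₁` of infinite sets; distinct nodes are comparable or almost disjoint. A node carries
an `F_σ` ideal, and all small subsets of the node are in `I`. The quotient is equivalent to the
collapse of the continuum to `ω₁`. The generic ultrafilter is a P-point which is not Tukey above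
the Baire space, hence it is not Tukey-idempotent.

The forcing language is that of `Pool.Agent.Helper669.Forcing`: a sentence is the set of the
conditions which force it, and a name for a subset of a ground model set `X` is a map from `X`
to sets of conditions.
-/

set_option autoImplicit false

open Set Cardinal

namespace Pool.Agent.Results.MP_8214d2_lc.NotTukeyIdempotent

open Pool.Agent.Helper669.Forcing

/-- An ideal on `ℕ`: proper, contains the finite sets, closed under subsets and unions. -/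
structure SetIdeal where
  /-- the members of the ideal -/
  mem : Set (Set ℕ)
  finite_mem : ∀ A : Set ℕ, A.Finite → A ∈ mem
  subset_mem : ∀ A ∈ mem, ∀ B, B ⊆ A → B ∈ mem
  union_mem : ∀ A ∈ mem, ∀ B ∈ mem, A ∪ B ∈ mem
  univ_notMem : Set.univ ∉ mem

/-- The positive sets, the conditions of the forcing `P(ℕ)/I`. -/
def Pos (I : SetIdeal) : Type := {A : Set ℕ // A ∉ I.mem}

/-- a condition -/
def Pos.mk {I : SetIdeal} (A : Set ℕ) (h : A ∉ I.mem) : Pos I := ⟨A, h⟩

/-- `A ≤ B` iff `A \ B ∈ I`. -/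
instance (I : SetIdeal) : Preorder (Pos I) where
  le A B := A.1 \ B.1 ∈ I.mem
  le_refl A := I.finite_mem _ (by rw [Set.sdiff_self]; exact finite_empty)
  le_trans A B C h1 h2 := I.subset_mem _ (I.union_mem _ h1 _ h2) _ (by
    rintro x ⟨hA, hC⟩
    by_cases hB : x ∈ B.1
    · exact Or.inr ⟨hB, hC⟩
    · exact Or.inl ⟨hA, hB⟩)

/-- The restriction of `I` to a positive set is never a maximal ideal. -/
def Atomless (I : SetIdeal) : Prop :=
  ∀ A, A ∉ I.mem → ∃ B, B ⊆ A ∧ B ∉ I.mem ∧ A \ B ∉ I.mem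

section Language

variable {P : Type} [Preorder P]

/-- `φ` iff `ψ`. -/
def fiff (φ ψ : Set P) : Set P := fand (fimp φ ψ) (fimp ψ φ)

/-- No new subsets of `ℕ`: every named subset `x` of `ℕ` is a ground model set. -/
def NoNewReals (P : Type) [Preorder P] : Set P :=
  fall fun x : ℕ → Set P => fex fun a : Set ℕ => fall fun n => fiff (meets (x n)) (fground (n ∈ a))

/-- The named relation `F` is a function from the named family `G` to the named family `W`. -/
def IsMap {Y Z : Type} (G : Set Y → Set P) (W : Set Z → Set P) (F : Set Y → Set Z → Set P) :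
    Set P :=
  fand (fall fun B => fimp (meets (G B)) (fex fun A => meets (F B A)))
    (fand (fall fun B => fall fun A => fimp (meets (F B A)) (fand (meets (G B)) (meets (W A))))
      (fall fun B => fall fun A => fall fun A' =>
        fimp (fand (meets (F B A)) (meets (F B A'))) (fground (A = A'))))

/-- The named family `C` is a cofinal subset of `(G, ⊇)`. -/
def IsCof {Y : Type} (G C : Set Y → Set P) : Set P :=
  fand (fall fun B => fimp (meets (C B)) (meets (G B)))
    (fall fun B => fimp (meets (G B)) (fex fun B' => fand (meets (C B')) (fground (B' ⊆ B))))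

/-- The image of `C` under `F` is cofinal in `(W, ⊇)`. -/
def ImageCof {Y Z : Type} (W : Set Z → Set P) (F : Set Y → Set Z → Set P) (C : Set Y → Set P) :
    Set P :=
  fall fun A => fimp (meets (W A)) (fex fun B => fex fun A' =>
    fand (meets (C B)) (fand (meets (F B A')) (fground (A' ⊆ A))))

/-- `(W, ⊇) ≤_T (G, ⊇)`: some function from `G` to `W` sends every cofinal subset of `(G, ⊇)` to a
cofinal subset of `(W, ⊇)`. -/
def TukeyLE {Y Z : Type} (W : Set Z → Set P) (G : Set Y → Set P) : Set P :=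
  fex fun F : Set Y → Set Z → Set P => fand (IsMap G W F)
    (fall fun C : Set Y → Set P => fimp (IsCof G C) (ImageCof W F C))

/-- The Fubini square `G · G`: the set `A` belongs to it iff for some `M ∈ G` and all `n ∈ M` the
section `{m : (n, m) ∈ A}` is in `G`. (As no new subsets of `ℕ` are added, subsets of `ℕ` and of
`ℕ × ℕ` are ground model sets.) -/
def FubiniSquare (G : Set ℕ → Set P) : Set (ℕ × ℕ) → Set P := fun A =>
  fex fun M : Set ℕ => fand (meets (G M)) (fall fun n => fall fun _ : n ∈ M =>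
    meets (G {m | (n, m) ∈ A}))

/-- `G` is Tukey-idempotent: `G · G ≡_T G`. -/
def TukeyIdempotent (G : Set ℕ → Set P) : Set P :=
  fand (TukeyLE (FubiniSquare G) G) (TukeyLE G (FubiniSquare G))

end Language

/-- The canonical name of the generic ultrafilter: `B ∈ G` iff the generic filter contains the
condition `B`. -/
def generic (I : SetIdeal) : Set ℕ → Set (Pos I) := fun B => {p | p.1 = B}

/-! ### The generic ultrafilter -/

theorem mem_generic {I : SetIdeal} {p : Pos I} {B : Set ℕ} :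
    p ∈ meets (generic I B) ↔ p.1 \ B ∈ I.mem := by
  constructor
  · intro h
    by_contra hcon
    obtain ⟨r, hr, s, hs, hrs⟩ := h ⟨p.1 \ B, hcon⟩ (by
      change (p.1 \ B) \ p.1 ∈ I.mem
      exact I.finite_mem _ (by
        have : (p.1 \ B) \ p.1 = ∅ := by
          ext x
          simp only [mem_sdiff, mem_empty_iff_false, iff_false]
          tauto
        rw [this]
        exact finite_empty))
    have hs' : s.1 = B := hs
    have h1 : r.1 \ (p.1 \ B) ∈ I.mem := hr
    have h2 : r.1 \ B ∈ I.mem := by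
      rw [← hs']
      exact hrs
    refine r.2 (I.subset_mem _ (I.union_mem _ h1 _ h2) _ fun x hx => ?_)
    by_cases hB : x ∈ B
    · exact Or.inl ⟨hx, fun h => h.2 hB⟩
    · exact Or.inr ⟨hx, hB⟩
  · intro h
    have hB : B ∉ I.mem := fun hB => p.2 (I.subset_mem _ (I.union_mem _ h _ hB) _ fun x hx => by
      by_cases hxB : x ∈ B
      · exact Or.inr hxB
      · exact Or.inl ⟨hx, hxB⟩)
    exact meets_of_le (s := (⟨B, hB⟩ : Pos I)) rfl h

/-! ### The ideal -/

open Pool.Agent.Q212.TW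

section

variable {Ω : Type} [LinearOrder Ω] [WellFoundedLT Ω] [Nonempty Ω]

/-- the ideal of the tree -/
def treeIdeal (hc : ∀ w : Ω, (Iio w).Countable) (hb : ∀ a : ℕ → Ω, ∃ b, ∀ n, a n < b) :
    SetIdeal where
  mem := {B | Sm Ω B}
  finite_mem _ h := sm_fin h
  subset_mem _ h _ hB := h.mono hB
  union_mem _ h _ h' := sm_union hc hb h h'
  univ_notMem h := not_sm_tr (Classical.arbitrary Ω) (fun _ => Sum.inl ∅)
    (Sm.mono h (subset_univ _))

variable (hc : ∀ w : Ω, (Iio w).Countable) (hb : ∀ a : ℕ → Ω, ∃ b, ∀ n, a n < b)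

theorem atomless : Atomless (treeIdeal hc hb) := by
  intro A hA
  obtain ⟨α, h, hf⟩ := not_sm_iff.1 hA
  have hne : (Sum.inl ∅ : Nd.Code) ≠ Sum.inl Set.univ := by
    intro h
    exact empty_ne_univ (Sum.inl.inj h)
  obtain ⟨β₁, k₁, h1, h2, h3⟩ := exists_suc hc hb α h (Sum.inl ∅)
  obtain ⟨β₂, k₂, h4, h5, h6⟩ := exists_suc hc hb α h (Sum.inl Set.univ)
  have had := Nd.suc_ad (tr α h) hne
  have hf1 := Nd.le_diff h3
  have hf2 := Nd.le_diff h6
  have hg1 := Nd.le_diff (tr_le hc h1.le h2)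
  have hg2 := Nd.le_diff (tr_le hc h4.le h5)
  refine ⟨A ∩ (tr β₁ k₁).A, inter_subset_left, not_sm_iff.2 ⟨β₁, k₁, ?_⟩,
    not_sm_iff.2 ⟨β₂, k₂, ?_⟩⟩
  · refine (hg1.union hf).subset ?_
    rintro x ⟨hx1, hx2⟩
    by_cases hx3 : x ∈ (tr α h).A
    · exact Or.inr ⟨hx3, fun hx4 => hx2 ⟨hx4, hx1⟩⟩
    · exact Or.inl ⟨hx1, hx3⟩
  · refine (((hg2.union hf).union (hf1.union hf2)).union had).subset ?_
    rintro x ⟨hx1, hx2⟩
    by_cases hx3 : x ∈ (tr α h).A
    · by_cases hx4 : x ∈ A
      · have hx5 : x ∈ (tr β₁ k₁).A := by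
          by_contra h
          exact hx2 ⟨hx4, fun h' => h h'.2⟩
        by_cases hx6 : x ∈ (Nd.suc (Sum.inl ∅) (tr α h)).A
        · by_cases hx7 : x ∈ (Nd.suc (Sum.inl Set.univ) (tr α h)).A
          · exact Or.inr ⟨hx6, hx7⟩
          · exact Or.inl (Or.inr (Or.inr ⟨hx1, hx7⟩))
        · exact Or.inl (Or.inr (Or.inl ⟨hx5, hx6⟩))
      · exact Or.inl (Or.inl (Or.inr ⟨hx3, hx4⟩))
    · exact Or.inl (Or.inl (Or.inl ⟨hx1, hx3⟩))

theorem noNewReals (p : Pos (treeIdeal hc hb)) : p ∈ NoNewReals (Pos (treeIdeal hc hb)) := by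
  classical
  intro x
  rw [mem_fex]
  intro q _
  obtain ⟨α, h, hf, hQ⟩ := fusion hc hb (fun (n : ℕ) r => ∃ hr : ¬ Sm Ω r,
    Pos.mk (I := treeIdeal hc hb) r hr ∈ meets (x n) ∨
      Pos.mk (I := treeIdeal hc hb) r hr ∈ fnot (meets (x n))) (by
    rintro n r r' ⟨hr, h1⟩ h2 h3
    refine ⟨h2, ?_⟩
    have h4 : Pos.mk (I := treeIdeal hc hb) r' h2 ≤ Pos.mk (I := treeIdeal hc hb) r hr := h3
    exact h1.imp (fun h => down_meets _ _ h _ h4) (fun h => down_fnot _ _ h _ h4)) q.1 q.2 (by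
    intro n r hr _
    by_cases h1 : Pos.mk (I := treeIdeal hc hb) r hr ∈ fnot (meets (x n))
    · exact ⟨r, hr, by rw [Set.sdiff_self]; exact sm_fin finite_empty, hr, Or.inr h1⟩
    · simp only [fnot, mem_ofPred_eq, not_forall, not_not] at h1
      obtain ⟨s, hs, h2⟩ := h1
      exact ⟨s.1, s.2, hs, s.2, Or.inl h2⟩)
  let s : Pos (treeIdeal hc hb) := ⟨(tr α h).A, not_sm_tr α h⟩
  refine ⟨s, sm_fin hf, {n | s ∈ meets (x n)}, fun n => ?_⟩
  constructor
  · rw [mem_fimp]
    intro w hw hwx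
    refine ⟨w, le_rfl, ?_⟩
    obtain ⟨_, h1 | h1⟩ := hQ n
    · exact h1
    · exact absurd hwx (h1 w hw)
  · rw [mem_fimp]
    intro w hw hwa
    exact ⟨w, le_rfl, down_meets _ _ hwa _ hw⟩

/-- The generic ultrafilter is not Tukey above its Fubini square. -/
theorem not_tukeyLE (p : Pos (treeIdeal hc hb)) :
    p ∉ TukeyLE (FubiniSquare (generic (treeIdeal hc hb))) (generic (treeIdeal hc hb)) := by
  classical
  intro hp
  obtain ⟨q₀, -, F, hmap, hcof⟩ := mem_fex.1 hp p le_rfl
  obtain ⟨hF1, hF2, hF3⟩ := hmap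
  let W : (ℕ → ℕ) → Set (ℕ × ℕ) := fun g => {z | g z.1 ≤ z.2}
  refine core hc hb (fun r B g => Monotone g ∧ Sm Ω (r \ B) ∧ ∀ s : Pos (treeIdeal hc hb), Sm Ω (s.1 \ r) →
    ∀ C ⊆ B, ∀ D, s ∈ meets (generic (treeIdeal hc hb) C) → s ∈ meets (F C D) → D ⊆ W g) q₀.1 q₀.2
    (fun r B g h => h.2.1) ?_ ?_ ?_ ?_
  · rintro r r' B g ⟨h0, h1, h2⟩ h3 h4
    exact ⟨h0, sm_trans hc hb h4 h1, fun s hs => h2 s (sm_trans hc hb hs h4)⟩
  · rintro r B B' g ⟨h0, h1, h2⟩ h3 h4
    exact ⟨h0, h4, fun s hs C hC => h2 s hs C (hC.trans h3)⟩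
  · intro r hr hrq g hg
    by_contra hcon
    push Not at hcon
    let Cn : Set ℕ → Set (Pos (treeIdeal hc hb)) := fun C =>
      {s | s ∈ meets (generic (treeIdeal hc hb) C) ∧ ∃ D, s ∈ meets (F C D) ∧ ¬ D ⊆ W g}
    let rp : Pos (treeIdeal hc hb) := ⟨r, hr⟩
    have hrp : rp ≤ q₀ := hrq
    have hCn : rp ∈ IsCof (generic (treeIdeal hc hb)) Cn := by
      constructor
      · intro B
        rw [mem_fimp]
        intro s _ hs
        obtain ⟨s', hs', t, ht, hst⟩ := hs s le_rfl
        exact ⟨s', hs', down_meets _ _ ht.1 _ hst⟩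
      · intro B
        rw [mem_fimp]
        intro s hs hsB
        refine ⟨s, le_rfl, ?_⟩
        rw [mem_fex]
        intro s' hs'
        have h1 : Sm Ω (s'.1 \ r) := hs'.trans hs
        have h2 : Sm Ω (s'.1 \ B) := mem_generic.1 (down_meets _ _ hsB _ hs')
        have h3 := hcon s'.1 s'.2 h1 B hg h2
        obtain ⟨t, ht, C, hC, D, h4, h5, h6⟩ := h3
        exact ⟨t, ht, C, meets_of_mem ⟨h4, D, h5, h6⟩, hC⟩
    obtain ⟨r1, hr1, him⟩ := mem_fimp.1 (hcof Cn) rp hrp hCn
    have hW : r1 ∈ meets (FubiniSquare (generic (treeIdeal hc hb)) (W g)) := by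
      refine meets_of_mem (mem_fex_of_mem Set.univ ?_ ⟨?_, fun n _ => ?_⟩)
      · exact down_fand (down_meets _) (down_fall fun _ => down_fall fun _ => down_meets _)
      · rw [mem_generic, sdiff_univ]
        exact (treeIdeal hc hb).finite_mem _ finite_empty
      · rw [mem_generic]
        refine (treeIdeal hc hb).finite_mem _ ((Set.finite_lt_nat (g n)).subset ?_)
        rintro m ⟨_, hm⟩
        exact lt_of_not_ge (fun h : g n ≤ m => hm h)
    obtain ⟨r2, hr2, hex⟩ := mem_fimp.1 (him (W g)) r1 le_rfl hW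
    obtain ⟨r3, hr3, B, hex'⟩ := mem_fex.1 hex r2 le_rfl
    obtain ⟨r4, hr4, A', h1, h2, h3⟩ := mem_fex.1 hex' r3 le_rfl
    obtain ⟨r5, hr5, t, ⟨-, D, ht, hD⟩, hrt⟩ := h1 r4 le_rfl
    have h4 : r5 ≤ q₀ := ((((hr5.trans hr4).trans hr3).trans hr2).trans hr1).trans hrp
    obtain ⟨r6, -, h5⟩ := mem_fimp.1 (hF3 B A' D) r5 h4
      ⟨down_meets _ _ h2 _ hr5, down_meets _ _ ht _ hrt⟩
    have h6 : A' = D := h5
    exact hD (h6 ▸ h3)
  · intro r B hr hrq hrB i
    let rp : Pos (treeIdeal hc hb) := ⟨r, hr⟩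
    have hrp : rp ≤ q₀ := hrq
    obtain ⟨r1, hr1, hex⟩ := mem_fimp.1 (hF1 B) rp hrp (mem_generic.2 hrB)
    obtain ⟨r2, hr2, D, hD⟩ := mem_fex.1 hex r1 le_rfl
    obtain ⟨r3, hr3, -, h3⟩ := mem_fimp.1 (hF2 B D) r2 ((hr2.trans hr1).trans hrp) hD
    obtain ⟨r4, hr4, t, ht, hrt⟩ := h3 r3 le_rfl
    obtain ⟨r5, hr5, M, h5, h6⟩ := mem_fex.1 ht r4 hrt
    have hM : Sm Ω (r5.1 \ M) := mem_generic.1 h5
    have h7 : ¬ Sm Ω (r5.1 ∩ M) := sm_inter hc hb r5.2 hM
    obtain ⟨n, ⟨hn1, hn2⟩, hn3⟩ : ∃ n ∈ r5.1 ∩ M, i ≤ n := by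
      by_contra hcon
      push Not at hcon
      exact h7 (sm_fin ((Set.finite_lt_nat i).subset fun n hn => hcon n hn))
    have h8 : Sm Ω (r5.1 \ {m | (n, m) ∈ D}) := mem_generic.1 (h6 n hn2)
    obtain ⟨m, -, hm⟩ : (r5.1 ∩ {m | (n, m) ∈ D}).Nonempty := by
      rw [nonempty_iff_ne_empty]
      intro h9
      apply sm_inter hc hb r5.2 h8
      rw [h9]
      exact sm_fin finite_empty
    refine ⟨m, fun g hg => ?_⟩
    have h9 : r5 ≤ r2 := (hr5.trans hr4).trans hr3
    have h10 : r5 ≤ rp := (h9.trans hr2).trans hr1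
    have h11 := hg.2.2 r5 h10 B subset_rfl D
      (down_meets _ _ (mem_generic.2 hrB : rp ∈ meets (generic (treeIdeal hc hb) B)) _ h10)
      (down_meets _ _ hD _ h9) hm
    exact (hg.1 hn3).trans h11

end

/-- **Main theorem** (positive answer to Q1, in ZFC). There is an ideal `I` on `ℕ` such that
`P(ℕ)/I` is atomless, every condition forces that no new subsets of `ℕ` are added, and every
condition forces that the generic ultrafilter is not Tukey-idempotent. -/
theorem result : ∃ I : SetIdeal, Atomless I ∧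
    ∀ p : Pos I, p ∈ NoNewReals (Pos I) ∧ p ∈ fnot (TukeyIdempotent (generic I)) := by
  let Ω := (ℵ_ 1 : Cardinal.{0}).ord.ToType
  have hc : ∀ w : Ω, (Iio w).Countable := by
    intro w
    rw [← Cardinal.le_aleph0_iff_set_countable, ← Cardinal.lt_aleph_one_iff]
    exact Cardinal.mk_Iio_toType_ord_lt w
  have hunc : ¬ (Set.univ : Set Ω).Countable := by
    intro h
    have h1 : #Ω ≤ ℵ₀ := by
      rw [Cardinal.mk_le_aleph0_iff]
      exact countable_univ_iff.mp h
    rw [mk_ord_toType] at h1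
    exact absurd h1 (not_le.mpr aleph0_lt_aleph_one)
  have hne : Nonempty Ω := by
    by_contra h
    rw [not_nonempty_iff] at h
    exact hunc (Set.to_countable _)
  have hb : ∀ a : ℕ → Ω, ∃ b, ∀ n, a n < b := by
    intro a
    by_contra hcon
    push Not at hcon
    refine hunc ((countable_iUnion fun n => (hc (a n)).insert (a n)).mono ?_)
    intro w _
    obtain ⟨n, hn⟩ := hcon w
    refine mem_iUnion.2 ⟨n, ?_⟩
    rcases eq_or_lt_of_le hn with h | h
    · exact Or.inl h
    · exact Or.inr h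
  exact ⟨treeIdeal hc hb, atomless hc hb, fun p => ⟨noNewReals hc hb p, fun q _ hq =>
    not_tukeyLE hc hb q hq.1⟩⟩

end Pool.Agent.Results.MP_8214d2_lc.NotTukeyIdempotent
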